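import Mathlib
import Pool.Agent.Q210.SP.BM

/-!
# The Brownian span set is almost surely the closure of its interior
-/

open Set Filter Topology MeasureTheory ProbabilityTheory
open scoped ENNReal NNReal

namespace Pool.Agent.Results.MP_367e1f_pr.SpanSetRegular

noncomputable section

/-- The span set on `[0,1]` of a path `f`: the set of `t - s` with `0 ≤ s ≤ t ≤ 1` and
`f s = f t`. -/
def Sp (f : ℝ≥0 → ℝ) : Set ℝ := {u | ∃ s t : ℝ≥0, s ≤ t ∧ t ≤ 1 ∧ f s = f t ∧ u = (t : ℝ) - s}

theorem Sp_eq (f : ℝ≥0 → ℝ) : Sp f = Pool.Agent.Q210.SP.SpR fun t => f t.toNNReal := by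
  ext u
  constructor
  · rintro ⟨s, t, hst, ht, he, rfl⟩
    refine ⟨sub_nonneg.mpr (by exact_mod_cast hst), s, s.2, ?_, ?_⟩
    · have : (t : ℝ) ≤ 1 := by exact_mod_cast ht
      linarith
    · show f ((s : ℝ) + (t - s)).toNNReal = f (s : ℝ).toNNReal
      rw [show (s : ℝ) + (t - s) = t by ring, Real.toNNReal_coe, Real.toNNReal_coe, he]
  · rintro ⟨hu, s, hs, hsu, he⟩
    refine ⟨s.toNNReal, (s + u).toNNReal, Real.toNNReal_le_toNNReal (by linarith), ?_, he.symm, ?_⟩
    · rw [Real.toNNReal_le_one]; exact hsu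
    · rw [Real.coe_toNNReal _ hs, Real.coe_toNNReal _ (by linarith)]
      ring

/-- For a standard Brownian motion `B`, almost surely the span set of `B` on `[0,1]` equals the
closure of its interior. -/
theorem result {Ω : Type*} [MeasurableSpace Ω] (P : Measure Ω) (B : ℝ≥0 → Ω → ℝ)
    (hB : IsBrownianReal B P) :
    ∀ᵐ ω ∂P, Sp (fun t => B t ω) = closure (interior (Sp fun t => B t ω)) := by
  have h0 := hB.eval_zero_ae_eq_zero
  have hn := Pool.Agent.Q210.SP.ae_half hB.neg
  filter_upwards [hB.cont, h0, Pool.Agent.Q210.SP.ae_half hB, hn] with ω hc hz h1 h2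
  rw [Sp_eq]
  refine Pool.Agent.Q210.SP.regular (g := fun t => B t.toNNReal ω)
    (hc.comp continuous_real_toNNReal) ?_ h1 ?_
  · show B (0 : ℝ).toNNReal ω = 0
    rw [Real.toNNReal_zero]; exact hz
  · exact h2

end

end Pool.Agent.Results.MP_367e1f_pr.SpanSetRegular
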